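import Pool.Agent.T2H07.GrowP

/-!
# The numerical dimension of log canonical pairs and the degrees of dominant multi-valued maps

Let `(X, Δ)` be a projective log canonical pair of dimension `n` with rational boundary, and let
`k < n`. If `(X, Δ)` is dominated by multi-valued rational maps `X' ← X'' → X` from a fixed variety
`X'` for which the pull back of `K_X + Δ` is at most `K_X''` over the prime divisors of `X'` outside
a finite set `S`, and whose `k + 1`-st mixed degrees grow more slowly than their topological degrees,
then `ν (K_X + Δ) ≤ k`, and `κ (K_X + Δ) = ν (K_X + Δ) = k` if `κ (K_X + Δ) ≥ k`. For `k = 0` the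
numerical dimension of `K_X + Δ` is zero if `K_X + Δ` is pseudo-effective; by a theorem of Nakayama
`K_X + Δ` is then numerically equivalent to an effective divisor, so that weak non-vanishing holds.

The varieties are given by the homogeneous coordinates `y` and `y'` of their generic points
(`NormalModel`), the maps by homomorphisms of the function fields. `NumDimLt y n Δ j` says that
`ν (K_X + Δ) < j`: for large `m` and small `b / m` the maps given by the sections of
`m (K_X + Δ) + b A` and by `n - j` pencils of hyperplane sections have degree at most `ε m ^ j`, so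
that the positive product of `j` copies of `K_X + Δ` and `n - j` hyperplane sections is `0`.
`LogKodairaGe` says `κ (K_X + Δ) ≥ k`, `DimensionsEq` that `κ (K_X + Δ) = ν (K_X + Δ) = k`.
-/

set_option autoImplicit false

open FF Pool.Agent.W602.GT Pool.Agent.Y172 Pool.Agent.R887
open Pool.Agent.T2H07.Dyn

namespace Pool.Agent.Results.MP_66b48b_ag.DegreeGrowthPairs

/-- Let `(X, Δ)` be a projective log canonical pair of dimension `n` with rational boundary, `X'` a
normal projective variety of dimension `n`, `S` a finite set of prime divisors of `X'` and `k < n`.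
Suppose that for all `ε > 0` there is a multi-valued rational map `X' ← X'' → X`: a variety `X''`
with a generically finite rational map `p` to `X'`, unramified over the prime divisors of `X'` which
are not in `S`, and a dominant rational map `f` to `X`, such that the pull back of `K_X + Δ` is at
most `K_X''` over these prime divisors and the intersection number
`(f^* H)^(n-k-1) (p^* H')^(k+1)` is at most `ε deg f`, `H` and `H'` being hyperplane sections of `X`
and `X'`. Then `ν (K_X + Δ) ≤ k`, and `κ (K_X + Δ) = ν (K_X + Δ) = k` if `κ (K_X + Δ) ≥ k`. -/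
theorem result {K K' : Type} [Field K] [Algebra ℂ K] [Field K'] [Algebra ℂ K'] {N N' n : ℕ}
    {y : Fin (N + 1) → K} {y' : Fin (N' + 1) → K'} (hy : NormalModel y) (hy' : NormalModel y')
    (hn : Algebra.trdeg ℂ K = n) (hn' : Algebra.trdeg ℂ K' = n) {Δ : Place ℂ K → ℚ}
    (hLC : LogCanonical y n Δ) {S : Set (Place ℂ K')} (hS : S.Finite) {k : ℕ} (hk : k < n)
    (hmap : ∀ ε : ℝ, 0 < ε → ∃ (L : Type) (_ : Field L) (_ : Algebra ℂ L)
      (φ : K →ₐ[ℂ] L) (ψ : K' →ₐ[ℂ] L), FiniteDimensional ψ.fieldRange L ∧
        UnramifiedOutside ψ y' S ∧ MultiPullBackLe φ ψ y n Δ y' S ∧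
          MultiDegreeLe φ ψ y y' (n - (k + 1)) (k + 1) ε) :
    NumDimLt y n Δ (k + 1) ∧ (LogKodairaGe y n Δ k → DimensionsEq y n Δ k) := by
  have h1 : NumDimLt y n Δ (k + 1) :=
    numdim2 hy hy' hn hn' (by omega) hLC (by omega) hS hmap
  exact ⟨h1, Pool.Agent.T2H07.Grow.concludeP hy hn hk h1⟩

end Pool.Agent.Results.MP_66b48b_ag.DegreeGrowthPairs
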