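import Pool.Agent.T2H41.RN

/-!
# The polytope of the pseudoeffective boundaries of nondegenerate pairs

Let `(X, Δ 1), ..., (X, Δ s)` be projective pairs of dimension `n ≥ 1` with rational boundaries on one
normal variety `X`, which are commensurable, by one finite correspondence, with pairs `(X₀, Δ₀ i)`, where
`X₀` is an irreducible component, of dimension `n`, of the set of the common zeros of `q` Laurent
polynomials `f l` in the torus `(ℂ^*)^(n + q)`; `Δ₀ i` has the multiplicities `c i j ∈ [0, 1]` along the
divisors `h j = 0` and `1 - A i v` along the divisors at infinity with the vector `v` of the orders of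
the coordinates, where `A i` is a weight. The system is nondegenerate: the logarithmic gradients of the
initial parts of the `f l` and of the `h j` are linearly independent, as for generic coefficients and
arbitrary Newton polytopes. The coefficients `c i j` lie in one cell (`IsNondegenerateFamily`).

**Theorem.** Let `B t = ∑ i, t i * Δ i` for the real points `t` of the simplex `t i ≥ 0`,
`∑ i, t i = 1`. The set of the `t` such that `K_X + B t` is pseudoeffective is a rational polytope, the
convex hull of finitely many rational points, and for all real points `t` of this polytope `K_X + B t`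
is linearly equivalent over `ℝ` to an effective real divisor.

In particular non-vanishing holds for all the real pairs `(X, B t)`, and the pseudoeffective thresholds
of the class are rational: if `K_X + Δ 2` is pseudoeffective and `K_X + Δ 1` is not, then the smallest
`λ` such that `K_X + (1 - λ) Δ 1 + λ Δ 2` is pseudoeffective is a rational number. For general pairs the
rational polytope of the pseudoeffective boundaries is known if the boundaries contain an ample divisor
(Birkar-Cascini-Hacon-McKernan), and the rationality of the pseudoeffective thresholds for `ℝ`-boundaries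
which are not big would follow from the existence of good minimal models.

Proof. On `X₀` the elimination procedure of the library `R885` of the starting repository decides for a
rational boundary whether `K + β` is pseudoeffective: it ends with a system of Laurent equations and a
polytope of exponents `u` such that the canonical form times the monomial `x ^ u` is a section. The
steps depend only on the signs of finitely many rational linear forms in `t`, so that there is one
finite tree of eliminations for the whole simplex, and in each leaf finitely many rational inequalities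
in `(t, u)` suffice (`T2H41.RA.tree`). So the pseudoeffective boundaries are a finite union of the
projections of bounded rational polyhedra (`T2H41.RA.polyL`). Here a real boundary is approximated by
rational boundaries `B' ≥ B`, and the exponents for a leaf which occurs infinitely often have a limit.
The union is convex, so that it is a rational polytope. The effective divisors descend to `X` by norms,
and pseudoeffectivity passes from `X` to `X₀` by the log discrepancies.

The language of the library is used: `X` is given by the homogeneous coordinates `y` of its generic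
point, the prime divisors of `X` are places `P` of the function field `K`.
-/

set_option autoImplicit false

open FF Pool.Agent Pool.Agent.W602.GT Pool.Agent.W603.LV Pool.Agent.Y172 Pool.Agent.Y191
  Pool.Agent.R885

namespace Pool.Agent.Results.MP_66b48b_ag.PseudoeffectivePolytope

section

variable {K : Type} [Field K] [Algebra ℂ K] {N : ℕ}

/-- The pairs `(X, Δ i)` are projective pairs with rational boundaries on one variety `X`, which are
commensurable, by the same finite correspondence, with nondegenerate pairs: `X₀` is a component of
dimension `n` of the set of the zeros of `q` Laurent polynomials `f l` in the torus of dimension `n + q`,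
and `(X, Δ i)` is commensurable with `X₀` and the boundary with the multiplicities `bdry (A i) (c i) x h`,
for weights `A i` and coefficients `c i j` in `[0, 1]` of the divisors `h j = 0` which lie in one cell. -/
def IsNondegenerateFamily (y : Fin (N + 1) → K) (n : ℕ) {s : ℕ} (Δ : Fin s → Place ℂ K → ℚ) : Prop :=
  ∃ (q p : ℕ) (f : Fin q → (Fin (n + q) → ℤ) →₀ ℂ) (h : Fin p → (Fin (n + q) → ℤ) →₀ ℂ)
    (L M : Type) (_ : Field L) (_ : Field M) (_ : Algebra ℂ L) (_ : Algebra ℂ M)
    (_ : Algebra K M) (_ : Algebra L M) (_ : IsScalarTower ℂ K M) (_ : IsScalarTower ℂ L M)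
    (x : Fin (n + q) → L) (A : Fin s → (Fin (n + q) → ℤ) → ℚ) (c : Fin s → Fin p → ℚ),
    FiniteDimensional K M ∧ FiniteDimensional L M ∧ T2H07.IsGenericPoint n f h x ∧
      T2H07.Nondegenerate f h x ∧ (∀ i, T2H07.IsWeight (A i)) ∧ (∀ i j, 0 ≤ c i j ∧ c i j ≤ 1) ∧
      T2H07.SameCell c ∧ ∀ i, T2H07.IsCommensurable M (bdry (A i) (c i) x h) y n (Δ i)

/-- `ω` is a section of `m K_X + ⌊D⌋` for the real divisor `D`: an `m`-canonical form with order at
least `- D P` along all prime divisors `P` of `X`. -/
def IsRealSection (y : Fin (N + 1) → K) (n m : ℕ) (D : Place ℂ K → ℝ)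
    (ω : (Fin n → Derivation ℂ K K) → K) : Prop :=
  IsPluri m ω ∧ ∀ P, IsPrimeDivisor y P → ∀ E : Fin n → Derivation ℂ K K, (∀ i, DerReg P (E i)) →
    ω E = 0 ∨ -(D P) ≤ P.ord (ω E)

/-- `K_X + B` is pseudoeffective: for some effective real divisor `H` there are arbitrarily large `m`
such that `⌊m (K_X + B) + H⌋` has a nonzero section. -/
def Pseudoeffective (y : Fin (N + 1) → K) (n : ℕ) (B : Place ℂ K → ℝ) : Prop :=
  ∃ H, T2H07.EffR y H ∧ ∀ M : ℕ, ∃ m, M ≤ m ∧ ∃ ω, ω ≠ 0 ∧ IsRealSection y n m (m • B + H) ω

/-- `K_X + B` is linearly equivalent over `ℝ` to an effective real divisor. -/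
def IsEffectiveClass (y : Fin (N + 1) → K) (n : ℕ) (B : Place ℂ K → ℝ) : Prop :=
  ∃ E, T2H07.EffR y E ∧ T2H07.RLin y n B E

/-- The real boundary `∑ i, t i * Δ i`. -/
noncomputable def comb {s : ℕ} (Δ : Fin s → Place ℂ K → ℚ) (t : Fin s → ℝ) (P : Place ℂ K) : ℝ :=
  ∑ i, t i * (Δ i P : ℝ)

end

/-- **The polytope of the pseudoeffective boundaries.** Let the pairs `(X, Δ i)` be a family of
projective pairs of dimension `n ≥ 1`, commensurable with nondegenerate pairs. There is a finite set `V`
of rational points of the simplex such that for all real points `t` of the simplex, with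
`B = ∑ i, t i * Δ i`, the following are equivalent: `K_X + B` is pseudoeffective; `K_X + B` is linearly
equivalent over `ℝ` to an effective real divisor; `t` is in the convex hull of `V`. -/
theorem result {K : Type} [Field K] [Algebra ℂ K] {N n : ℕ} (hn : 1 ≤ n) {y : Fin (N + 1) → K}
    {s : ℕ} {Δ : Fin s → Place ℂ K → ℚ} (hΔ : IsNondegenerateFamily y n Δ) :
    ∃ V : Finset (Fin s → ℚ), (∀ v ∈ V, (∀ i, 0 ≤ v i) ∧ ∑ i, v i = 1) ∧
      ∀ t : Fin s → ℝ, (∀ i, 0 ≤ t i) → ∑ i, t i = 1 →
        (Pseudoeffective y n (comb Δ t) ↔ IsEffectiveClass y n (comb Δ t)) ∧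
        (Pseudoeffective y n (comb Δ t) ↔
          t ∈ convexHull ℝ {v' : Fin s → ℝ | ∃ v ∈ V, ∀ i, v' i = (v i : ℝ)}) := by
  obtain ⟨q, p, f, h, L, M, i1, i2, i3, i4, i5, i6, i7, i8, x, A, c, h1, h2, hx, hfh, hA, hc, hcell,
    hy⟩ := hΔ
  obtain ⟨V, hV1, hV2⟩ := T2H41.RA.polyK (M := M) hn hx hfh hA hc hcell hy
  refine ⟨V, hV1, fun t ht ht1 => ?_⟩
  have h3 : {v' : Fin s → ℝ | ∃ v ∈ V, ∀ i, v' i = (v i : ℝ)} =
      T2H41.RA.rc '' (V : Set (Fin s → ℚ)) := by
    ext v'
    constructor
    · rintro ⟨v, hv, h4⟩
      exact ⟨v, hv, (funext h4).symm⟩
    · rintro ⟨v, hv, rfl⟩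
      exact ⟨v, hv, fun _ => rfl⟩
  rw [h3]
  exact hV2 t ht ht1

end Pool.Agent.Results.MP_66b48b_ag.PseudoeffectivePolytope
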