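import Pool.Agent.T2H06.ASM.Pair

/-!
# Log pairs and their rational self-maps

Let `(X, Δ)` be a projective pair of dimension `n > 0`, for instance log canonical, with rational
boundary such that `r (K_X + Δ)`, `r ≥ 1`, is Cartier. A dominant rational self-map `f` of `X`
satisfies the log ramification condition if `e α ≥ 1 - Δ R` for all prime divisors `R` of `X`, where
`e` is the ramification index of `f` along `R` and `α` the log discrepancy of `(X, Δ)` along the image
of `R`, a divisor over `X`. Examples are the self-maps of orbifolds, and the maps with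
`f⁻¹ (Δ) ⊆ Δ` if `(X, Δ)` is log canonical, `Δ` is reduced and `X ∖ Δ` has canonical singularities,
that is, the rational self-maps of the open variety `X ∖ Δ` by which log forms are pulled back to log
forms.

(1) Let `K_X + Δ` be nef and `f` such a map, of any topological degree. If `ν (K_X + Δ) ≥ j`, then the
largest dynamical degree of `f` is attained by `j + 1` consecutive dynamical degrees. Hence
`κ (K_X + Δ) = ν (K_X + Δ) = k` if `κ (K_X + Δ) ≥ k` and if the largest dynamical degree is not
attained by `k + 2` consecutive dynamical degrees. If one of the dynamical degrees is larger than all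
the others, then `K_X + Δ` is numerically trivial.

(2) If the group `ℤ ^ s`, `s ≥ 1`, acts on `X` by birational self-maps `f_t` which satisfy the log
ramification condition and have a dynamical degree `≥ 1 + ε` for all `t ≠ 0`, then
`s + ν (K_X + Δ) ≤ n - 1`, without any positivity of `K_X + Δ`. Hence
`κ (K_X + Δ) = ν (K_X + Δ) = n - 1 - s` if `κ (K_X + Δ) ≥ n - 1 - s`, and `ν (K_X + Δ) ≤ 0` if
`s ≥ n - 1`; by a theorem of Nakayama, which is not formalised here, `K_X + Δ` is then numerically
equivalent to an effective divisor if it is pseudo-effective: weak non-vanishing holds.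

The variety is given by the homogeneous coordinates `y` of its generic point (`NormalModel`), the
rational map by the endomorphism `φ = f^*` of the function field `K`, the divisors by their
multiplicities along the prime divisors `P` of `X` (`IsDivisor`). `IsCanonicalDivisor y n C` says that
`C` is the divisor of a rational `n`-form, `Cartier` that a divisor has local equations, `Nef` that
`q L + H` is semiample for all `q ≥ 1`, `LogMap` is the log ramification condition. `DynDegree y n φ p δ`
says that `δ` is the `p`-th dynamical degree, `NumLt y n L j` that `ν (L) < j`: for large `m` and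
small `b / m` the maps given by the sections of `m L + b A` and by `n - j` pencils of hyperplane
sections have degree at most `ε m ^ j`, so that the positive product of `j` copies of `L` and `n - j`
hyperplane sections is `0`. For nef `L` this product is the intersection number. `IitakaGe`,
`IitakaEq` and `NumEq` say `κ (L) ≥ k`, `κ (L) = k` and `ν (L) = k`.
-/

set_option autoImplicit false

open FF Pool.Agent.W602.GT Pool.Agent.Y172 Pool.Agent.R887 Pool.Agent.T2H06.DYR
  Pool.Agent.T2H06.DYL Pool.Agent.T2H06.ASM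
open Pool.Agent.T2H08.CM (IsCanonicalDivisor can_divisor add_divisor)

namespace Pool.Agent.Results.MP_66b48b_ag.SelfMapsPairs

/-- The largest value of `δ p`, `p ≤ n`, is attained for `j + 1` consecutive `p`. -/
def LargestAttained (n : ℕ) (δ : ℕ → ℝ) (j : ℕ) : Prop :=
  ∃ q, q + j ≤ n ∧ ∀ i ≤ j, ∀ p ≤ n, δ p ≤ δ (q + i)

/-- The sections `g ≠ 0` of `m L`, `m ≥ 1`, have no zeros: `div g + m L = 0`. -/
def NoZeros {K : Type} [Field K] [Algebra ℂ K] {N : ℕ} (y : Fin (N + 1) → K)
    (L : Place ℂ K → ℚ) : Prop :=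
  ∀ m : ℕ, 1 ≤ m → ∀ g : K, IsSec y (m • L) g → g ≠ 0 →
    ∀ P, IsPrimeDivisor y P → (P.ord g : ℚ) = -(m * L P)

/-- Let `X` be a normal projective variety of dimension `n > 0`, `C` a canonical divisor, `Δ` a
rational divisor and `r ≥ 1` such that `L = r (C + Δ)` is Cartier.

(1) Suppose that `L` is nef and let `f` be a dominant rational self-map of `X` which satisfies the log
ramification condition for `(X, Δ)`. The dynamical degrees `δ 0, ..., δ n` of `f` exist, `δ 0 = 1`,
`δ n = deg f`, and if `ν (L) ≥ j` then the largest of them is attained by `j + 1` consecutive ones. In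
particular `κ (L) = ν (L) = k` if `κ (L) ≥ k`, where `k < n`, and it is not attained by `k + 2`
consecutive ones. If it is attained only once, then `L` is numerically trivial, and the sections
`g ≠ 0` of `m L`, `m ≥ 1`, have no zeros.

(2) Suppose that `ℤ ^ s`, `s > 0`, acts on `X` by birational maps `f_t` which satisfy the log
ramification condition for `(X, Δ)`, and that for some `ε > 0` each `f_t`, `t ≠ 0`, has a dynamical
degree which is at least `1 + ε`. Then `ν (L) < j` if `s + j ≥ n`, that is, `s + ν (L) ≤ n - 1`. In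
particular `κ (L) = ν (L) = k` if `κ (L) ≥ k`, where `k < n`, and `s + k ≥ n - 1`. If `L` is nef and
`s ≥ n - 1`, then `L` is numerically trivial, and the sections `g ≠ 0` of `m L`, `m ≥ 1`, have no
zeros. -/
theorem result {K : Type} [Field K] [Algebra ℂ K] {N n : ℕ} {y : Fin (N + 1) → K}
    (hy : NormalModel y) (hn : Algebra.trdeg ℂ K = n) (hn0 : 0 < n)
    {C Δ L : Place ℂ K → ℚ} (hC : IsCanonicalDivisor y n C) (hΔ : IsDivisor y Δ) {r : ℕ}
    (hr : 1 ≤ r) (hL : L = r • C + r • Δ) (hcar : Cartier y n L) :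
    (Nef y n L → ∀ φ : K →ₐ[ℂ] K, LogMap y n Δ φ →
      ∃ δ : ℕ → ℝ, (∀ p ≤ n, 1 ≤ δ p ∧ DynDegree y n φ p (δ p)) ∧ δ 0 = 1 ∧
        δ n = mapDegree φ ∧
        (∀ j ≤ n, ¬ NumLt y n L j → LargestAttained n δ j) ∧
        (∀ k < n, IitakaGe y L k → ¬ LargestAttained n δ (k + 1) →
          IitakaEq y L k ∧ NumEq y n L k) ∧
        ((∃ p ≤ n, ∀ q ≤ n, q ≠ p → δ q < δ p) → NumLt y n L 1 ∧ NoZeros y L)) ∧
    ∀ s : ℕ, 0 < s → ∀ ρ : (Fin s → ℤ) → (K ≃ₐ[ℂ] K), (∀ t t', ρ (t + t') = ρ t * ρ t') →
      (∀ t, LogMap y n Δ (ρ t : K →ₐ[ℂ] K)) → ∀ ε : ℝ, 0 < ε →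
      (∀ t, t ≠ 0 → ∃ p ≤ n, ∃ δ : ℝ, 1 + ε ≤ δ ∧
        Pool.Agent.T2H06.DYN.DynDegree y n (ρ t) p δ) →
      (∀ j ≤ n, n ≤ s + j → NumLt y n L j) ∧
        (∀ k < n, n ≤ s + k + 1 → IitakaGe y L k → IitakaEq y L k ∧ NumEq y n L k) ∧
        (n ≤ s + 1 → Nef y n L → NumLt y n L 1 ∧ NoZeros y L) := by
  have hD : IsDivisor y L := by
    rw [hL]
    exact add_divisor (can_divisor hy hn hC) hΔ r r
  have hpull : ∀ φ : K →ₐ[ℂ] K, LogMap y n Δ φ → PullLe y L φ 1 := by
    intro φ hφ
    rw [hL]
    exact pair_pull hy hn hC r φ hφ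
  refine ⟨fun hnef φ hφ => ?_, fun s hs ρ hρ hlog ε hε hent => ?_⟩
  · obtain ⟨δ, h1, h2, h3, h4'⟩ := dynL hy hn hD hcar hnef φ le_rfl (hpull φ hφ) (Or.inl rfl)
    have h4 : ∀ j ≤ n, ¬ NumLt y n L j → ∃ q, q + j ≤ n ∧ ∀ i ≤ j, ∀ p ≤ n, δ p ≤ δ (q + i) := by
      intro j hj hnd
      obtain ⟨q, hq, h⟩ := h4' j hj hnd
      refine ⟨q, hq, fun i hi p hp => ?_⟩
      have h5 := h i hi p hp
      simpa using h5
    refine ⟨δ, h1, h2, h3, h4, fun k hk hkod hfew => abundance_of_few hy hn h4 hk hkod hfew, ?_⟩
    rintro ⟨p, hp, hmax⟩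
    have h5 : NumLt y n L 1 := by
      by_contra hnd
      obtain ⟨q, hq, hle⟩ := h4 1 hn0 hnd
      have h6 : q = p := by
        by_contra hne
        have h7 := hmax q (by omega) hne
        have h8 := hle 0 (Nat.zero_le _) p hp
        rw [add_zero] at h8
        linarith
      have h7 := hmax (q + 1) hq (by omega)
      have h8 := hle 1 le_rfl p hp
      linarith
    exact ⟨h5, fun m hm g hg hg0 => nef_trivial hy hn hn0 h5 hnef hm hg hg0⟩
  · obtain ⟨h1, h2⟩ := Pool.Agent.T2H08.CM.commutingL_abundance hs hρ hy hn hn0 hD hcar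
      (fun t => hpull _ (hlog t)) hε hent
    refine ⟨h1, h2, fun hns hnef => ?_⟩
    have h3 : NumLt y n L 1 := h1 1 hn0 hns
    exact ⟨h3, fun m hm g hg hg0 => nef_trivial hy hn hn0 h3 hnef hm hg hg0⟩

end Pool.Agent.Results.MP_66b48b_ag.SelfMapsPairs
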