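import Pool.Agent.T2H41.QH

/-!
# Weak non-vanishing for pairs commensurable with few-monomial subvarieties of toric varieties

Let `V` be an irreducible component, of dimension `w`, of a quasi-projective variety
`{F = 0, x_j ≠ 0 for all j in U}` in `P^n` over `ℂ`, where each form `F e` has at most two monomials,
with arbitrary exponents, or at most `s` monomials and the exponents in it of the variables `x_j`, `j`
not in `U`, are divisible by some `N' ≥ N`, `N ≥ n (s + 1) (s - 1) (s - 2) / 2` (`ToricSparse U s N F`,
`Pool/Agent/T2H41/LA.lean`). The forms with two monomials can be the equations of any projective toric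
variety `T` in `P^n`, normal or not, so that `V` is a subvariety of an open subset of `T`; if `U`
contains all indices, `V` can be any closed subvariety of a torus, and for `U = ∅` it is projective.

Let `z` be the homogeneous coordinates of the generic point of `V`, with values in the function field
`L` of `V` (`SubVarU`, `IsComponentU`), let `D_U` be the reduced boundary of `V` on all its models: the
prime divisors over `V` with centre outside of the open part `x_j ≠ 0`, `j` in `U` (`redU U z`, it is `1`
for these divisors and `0` for all other divisors), and let `D` be the full toric boundary, for the set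
of all coordinates which do not vanish identically on `V`. Let `β` be a boundary with rational
coefficients between `D_U` and `D`.

Let `(X, Δ)` be any projective pair with rational boundary which is commensurable with `(V, β)`
(`IsCommensurable`): the function fields `K` of `X` and `L` of `V` have a common finite extension `M`,
with any ramification, to which `K_X + Δ` and `K_V + β` have the same pull-back, and the log discrepancies
of `(X, Δ)` are at least those given by `β`. Such a pair is log canonical; for example `(X, Δ)` can be a
log smooth projective model of `V` with reduced boundary, or its quotient by a finite group.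

`Contracts U ℂ z b` (`Pool/Agent/W602/GT/KStm.lean`): the one-parameter group `diag (t ^ b_j)`, `b_j ≥ 0`,
`b_j = 0` for `j` in `U`, extends to a nontrivial family of affine lines `t ↦ (t ^ b_j x_j)` which cover
`V`. `Acts U ℂ z b`: the group `diag (t ^ b_j)` preserves `V`.

**Theorem.** Suppose that `β = D_U` if some one-parameter group contracts `V` (no condition, otherwise).
Then these are equivalent: `K_X + Δ` is pseudoeffective; some positive multiple of `K_X + Δ` has a
nonzero section; no one-parameter group contracts `V`. If they hold then the Kodaira dimension and the
numerical dimension of `K_X + Δ` are equal to `w - p`, where `p` is the dimension of a torus of diagonal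
matrices which preserves `V` (the `b l` are independent modulo the vectors which act trivially); if they
do not hold then both dimensions are `-∞`.

So weak non-vanishing holds for all these log canonical pairs, in the strong form that `K_X + Δ` is
`ℚ`-linearly equivalent to an effective divisor, and they satisfy `κ = ν`.

Proof. The sections are built from Wronskians of the circuits of monomials, as in the starting library
`W602.GT` (where all equations have divisible exponents and there is no statement on `ν` or on pairs);
equations with two terms do not contribute to the orders, so that they are allowed with arbitrary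
exponents (`T2H41.QA.kod_dataT`). For the numerical dimension, the ratios of the terms of a circuit
generate a field of transcendence degree `w - p`; over its algebraic closure the function field becomes
the function field of a torus of dimension `p`, on which the full boundary has numerical dimension `0`
(`T2H41.QB.torus_num`, `rank_le`, `num_le`), and `ν` is at most the dimension of the base plus the
numerical dimension of the generic fibre (`pair_gen` of the library `R885`). In the contracting case no
large multiple of `K_X + Δ` plus a fixed divisor has sections. Both properties are transferred to `(X, Δ)`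
by the common finite extension (`T2H41.QB.qgen`).
-/

set_option autoImplicit false

open FF Filter IntermediateField Pool.Agent Pool.Agent.W602.GT Pool.Agent.Y172 Pool.Agent.Y191 Pool.Agent.Y174
  Pool.Agent.T2H41.LA

namespace Pool.Agent.Results.MP_66b48b_ag.ToricLogAbundance

section

variable {K L : Type} [Field K] [Field L] [Algebra ℂ K] [Algebra ℂ L]

open Classical in
/-- The reduced boundary, on all models, of the open part `x_j ≠ 0`, `j` in `U`: the multiplicity of
the prime divisor `P` is `1` if its centre is not in this open part, and `0` otherwise. -/
noncomputable def redU {n : ℕ} (U : Set (Fin (n + 1))) (z : Fin (n + 1) → L) (P : Place ℂ L) : ℚ :=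
  if OffU U z P then 1 else 0

/-- `(X, Δ)` is a projective pair with function field `K` which is commensurable with the pair
with function field `L` and the multiplicities `b`: the pull-backs of the log canonical divisors to
some common finite extension `M` of `K` and `L` coincide. That is, if the place `P'` of `M` lies over
the prime divisor `P` of `X` and over the place `Q` of `L`, with the ramification indices `e` and `e'`,
then `e (1 - Δ P) = e' (1 - b Q)`. Moreover, for all divisors `P` over `X`, the log discrepancy of
`(X, Δ)` along `P` is at least `e' (1 - b Q) / e`. -/
def IsCommensurable (b : Place ℂ L → ℚ) {N : ℕ} (y : Fin (N + 1) → K) (n : ℕ)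
    (Δ : Place ℂ K → ℚ) : Prop :=
  NormalModel y ∧ Effective y Δ ∧ ∃ (M : Type) (_ : Field M) (_ : Algebra ℂ M) (_ : Algebra K M)
    (_ : Algebra L M) (_ : IsScalarTower ℂ K M) (_ : IsScalarTower ℂ L M),
    FiniteDimensional K M ∧ FiniteDimensional L M ∧
      (∀ P, IsPrimeDivisor y P → ∀ (P' : Place ℂ M) (Q : Place ℂ L) (e e' : ℕ),
        LiesOn P' P e → LiesOn P' Q e' → (e : ℚ) * (1 - Δ P) = e' * (1 - b Q)) ∧
      ∀ P, Divisorial n P → ∀ (P' : Place ℂ M) (Q : Place ℂ L) (e e' : ℕ),
        LiesOn P' P e → LiesOn P' Q e' → LogDisc y n Δ P (e' * (1 - b Q) / e)

/-- `K_X + Δ` is pseudoeffective: for some effective divisor `H` there are arbitrarily large `m` such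
that `m (K_X + Δ) + H` has a nonzero section. -/
def Pseudoeffective {N : ℕ} (y : Fin (N + 1) → K) (n : ℕ) (Δ : Place ℂ K → ℚ) : Prop :=
  ∃ H, Effective y H ∧ ∀ M : ℕ, ∃ m, M ≤ m ∧ h0 y n m (m • Δ + H) ≠ 0

end

/-- **Weak non-vanishing and abundance.** Let `V` be a component of a quasi-projective variety in a
toric variety given by few monomials with large exponents, and `(X, Δ)` a projective pair which is
commensurable with `(V, β)`, where `β` is a boundary between the reduced boundary `D_U` and the full
toric boundary (equal to `D_U`, if a one-parameter group contracts `V`). Then `K_X + Δ` is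
pseudoeffective if and only if some multiple has a nonzero section, if and only if no one-parameter
group contracts `V`. Then `κ = ν = w - p` for the dimension `p` of a torus which acts on `V`;
otherwise `κ = ν = -∞`. -/
theorem result {n : ℕ} {ι : Type} {U : Set (Fin (n + 1))} {F : ι → MvPolynomial (Fin (n + 1)) ℂ}
    {s N : ℕ} (hF : ToricSparse U s N F) (hN : n * ((s + 1) * ((s - 1) * (s - 2) / 2)) ≤ N)
    {L : Type} [Field L] [Algebra ℂ L] {w : ℕ} {z : Fin (n + 1) → L} (hz : SubVarU U F L w z)
    (hcomp : IsComponentU U F z) {β : Place ℂ L → ℚ}
    (hβ : ∀ P, redU U z P ≤ β P ∧ β P ≤ redU {j | z j ≠ 0} z P)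
    (hc : (∃ b, Contracts U ℂ z b) → β = redU U z) {K : Type} [Field K] [Algebra ℂ K] {m : ℕ}
    {y : Fin (m + 1) → K} {Δ : Place ℂ K → ℚ} (hy : IsCommensurable β y w Δ) :
    (Pseudoeffective y w Δ ↔ ∃ a : ℕ, 1 ≤ a ∧ ∃ ω : (Fin w → Derivation ℂ K K) → K, ω ≠ 0 ∧
      Y172.IsSection y w a (a • Δ) ω) ∧
    (Pseudoeffective y w Δ ↔ ¬ ∃ b, Contracts U ℂ z b) ∧
    (Pseudoeffective y w Δ → ∃ (h p : ℕ) (b : Fin p → Fin (n + 1) → ℤ), h + p = w ∧
      (∀ l, Acts U ℂ z (b l)) ∧
      (∀ c : Fin p → ℤ, (∀ j j', z j ≠ 0 → z j' ≠ 0 →
        ∑ l, c l * b l j = ∑ l, c l * b l j') → c = 0) ∧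
      kodairaDim y w Δ = (h : WithBot ℕ) ∧
      ∀ A, Effective y A → Integral y A → numericalDim y w Δ A = (h : EReal)) ∧
    (¬ Pseudoeffective y w Δ → kodairaDim y w Δ = ⊥ ∧
      ∀ A, Effective y A → numericalDim y w Δ A = ⊥) := by
  obtain ⟨h1, h2, M, _, _, _, _, _, _, _, _, h3, h4⟩ := hy
  have h : tn (s - 1) = (s - 1) * (s - 2) / 2 := by
    unfold tn
    rw [Fin.sum_univ_eq_sum_range (fun i => i), Finset.sum_range_id, Nat.sub_sub]
  exact T2H41.QB.final (M := M) hF (by rw [h]; exact hN) hz hcomp (fun P => (hβ P).1)
    (fun P => (hβ P).2) hc ⟨h1, h2, h3, h4⟩

end Pool.Agent.Results.MP_66b48b_ag.ToricLogAbundance
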